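import Mathlib
import Pool.Agent.N223.SQ.Int

set_option autoImplicit false

/-!
# The formula for `|n² + a|`, uniformly in `a` and in the window, in every sequential sieved model

The integers are decided one after the other, no multiple of a prime of a finite set `Q` can be chosen,
and the conditional probability of choosing `n + 1` (free of the primes of `Q`) given the past is
asymptotic to `∏ (1 - 1 / p)⁻¹ / log n`.  No independence and no rate is assumed.  Almost surely the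
number of the `n` in the window `(z, z + x]` with `|n² + a|` chosen is asymptotic to
`h_{a,Q} ∑ 1 / log |n² + a|`, uniformly for all integers `a` and `z` with `|a|, |z| ≤ x ^ C`.
-/

open MeasureTheory Filter
open scoped Topology

namespace Pool.Agent.Results.MP_391708_nt.UniformInModels

/-- the number of the `n` in `(z, z + x]` with `|n² + a|` in `S` -/
noncomputable def count (S : Set ℕ) (a z : ℤ) (x : ℕ) : ℕ :=
  {n : ℤ | z < n ∧ n ≤ z + x ∧ (n ^ 2 + a).natAbs ∈ S}.ncard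

/-- the product `h_a` of the page, over the odd primes in `Q` -/
noncomputable def h (Q : Finset ℕ) (a : ℤ) : ℝ :=
  ∏ p ∈ Q.erase 2, (1 - (jacobiSym (-a) p : ℝ) / ((p : ℝ) - 1))

/-- the sum of the `1 / log |n² + a|` over the window (with `log 2` for `log |n² + a|` when `|n² + a| ≤ 2`) -/
noncomputable def L (a z : ℤ) (x : ℕ) : ℝ :=
  ∑ n ∈ Finset.Ioc z (z + x), 1 / Real.log ((max (n ^ 2 + a).natAbs 2 : ℕ) : ℝ)

open Pool.Agent.N223.SQ

lemma MT_eq (Q : Finset ℕ) (a z : ℤ) (x : ℕ) : MT Q a z x = h Q a * L a z x := rfl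

lemma exp_ineq (C : ℕ) (δ A : ℝ) (hδ : 0 < δ) (hA : 1 ≤ A) :
    A ^ (C + 1) ≤ (A ^ (δ / 2)) ^ (⌈2 * (C + 1) / δ⌉₊) := by
  rw [← Real.rpow_natCast, ← Real.rpow_natCast, ← Real.rpow_mul (by linarith)]
  apply Real.rpow_le_rpow_of_exponent_le hA
  have h1 : 2 * ((C : ℝ) + 1) / δ ≤ (⌈2 * ((C : ℝ) + 1) / δ⌉₊ : ℝ) := Nat.le_ceil _
  rw [div_le_iff₀ hδ] at h1
  push_cast
  nlinarith

end Pool.Agent.Results.MP_391708_nt.UniformInModels

open Pool.Agent.Results.MP_391708_nt.UniformInModels Pool.Agent.N223.SQ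

/-- Let `S n` be the event that `n` belongs to a random set adapted to a filtration `ℱ`, let `Q` be a
finite set of primes, let no multiple of a prime in `Q` be chosen, and let the conditional probability
of `S (n + 1)` given `ℱ n`, times `log n`, tend to `∏_{p ∈ Q} (1 - 1 / p)⁻¹` along the `n` with `n + 1`
free of the primes in `Q`, almost surely.
(1) Almost surely, for all `C` and `ε > 0`, for all large `x` and ALL integers `a`, `z` with
`|a|, |z| ≤ x ^ C` the number of the `n` in `(z, z + x]` with `|n² + a|` chosen differs from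
`h_{a,Q} ∑ 1 / log |n² + a|` by at most `ε` times this quantity.
(2) Almost surely, for every integer `a`, the number of the `1 ≤ n ≤ N` with `|n² + a|` chosen is
asymptotic to `(h_{a,Q} / 2) ∫_2^N dt / log t`.
(3) Almost surely, for all `C`, for all large `x` and all `|a|, |z| ≤ x ^ C` the number in (1) is at
least `c_Q x / (4 (C + 2) log x)`, where `c_Q = ∏ (1 - 1 / (p - 1))` over the odd primes in `Q`.
(4) Almost surely, for all `C` and `δ > 0`, for all `a` with `|a|` large and all `|z| ≤ |a| ^ C` there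
is an `n` with `z < n ≤ z + |a| ^ δ` and `|n² + a|` chosen. -/
theorem Pool.Agent.Results.MP_391708_nt.UniformInModels.result
    {Ω : Type} [mΩ : MeasurableSpace Ω] (μ : Measure Ω) [IsProbabilityMeasure μ]
    (ℱ : Filtration ℕ mΩ) (S : ℕ → Set Ω) (hS : ∀ n, MeasurableSet[ℱ n] (S n))
    (Q : Finset ℕ) (hQ : ∀ p ∈ Q, p.Prime)
    (hcop : ∀ n, (∃ p ∈ Q, p ∣ n) → S n = ∅)
    (hd : ∀ᵐ ω ∂μ, Tendsto (fun n : ℕ =>
      (μ[(S (n + 1)).indicator (fun _ => (1 : ℝ)) | ℱ n]) ω * Real.log n)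
      (atTop ⊓ 𝓟 {n : ℕ | ∀ p ∈ Q, ¬ p ∣ n + 1}) (𝓝 (∏ p ∈ Q, (1 - 1 / (p : ℝ))⁻¹))) :
    (∀ᵐ ω ∂μ, ∀ (C : ℕ) (ε : ℝ), 0 < ε → ∃ x₀ : ℕ, ∀ x ≥ x₀, ∀ a z : ℤ,
      a.natAbs ≤ x ^ C → z.natAbs ≤ x ^ C →
      |(count {n | ω ∈ S n} a z x : ℝ) - h Q a * L a z x| ≤ ε * (h Q a * L a z x)) ∧
    (∀ᵐ ω ∂μ, ∀ a : ℤ, Asymptotics.IsEquivalent atTop
      (fun N : ℕ => (count {n | ω ∈ S n} a 0 N : ℝ))
      (fun N : ℕ => (1 / 2 : ℝ) * h Q a * ∫ t in (2 : ℝ)..(N : ℝ), 1 / Real.log t)) ∧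
    (∀ᵐ ω ∂μ, ∀ C : ℕ, ∃ x₀ : ℕ, ∀ x ≥ x₀, ∀ a z : ℤ, a.natAbs ≤ x ^ C → z.natAbs ≤ x ^ C →
      (∏ p ∈ Q.erase 2, (1 - 1 / ((p : ℝ) - 1))) * x / (4 * (C + 2) * Real.log x) ≤
        count {n | ω ∈ S n} a z x) ∧
    (∀ᵐ ω ∂μ, ∀ (C : ℕ) (δ : ℝ), 0 < δ → ∃ a₀ : ℕ, ∀ a z : ℤ, a₀ ≤ a.natAbs →
      z.natAbs ≤ a.natAbs ^ C →
      ∃ n : ℤ, z < n ∧ (n : ℝ) ≤ z + (a.natAbs : ℝ) ^ δ ∧ ω ∈ S (n ^ 2 + a).natAbs) := by
  have h1 : ∀ᵐ ω ∂μ, ∀ (C : ℕ) (ε : ℝ), 0 < ε → ∃ x₀ : ℕ, ∀ x ≥ x₀, ∀ a z : ℤ,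
      a.natAbs ≤ x ^ C → z.natAbs ≤ x ^ C →
      |(count {n | ω ∈ S n} a z x : ℝ) - h Q a * L a z x| ≤ ε * (h Q a * L a z x) :=
    ae_all_iff.2 fun C => law (μ := μ) hS Q hQ hcop hd C
  have hπ := (coef_ge Q hQ 0).2
  set π : ℝ := ∏ p ∈ Q.erase 2, (1 - 1 / ((p : ℝ) - 1)) with hπdef
  have h3 : ∀ᵐ ω ∂μ, ∀ C : ℕ, ∃ x₀ : ℕ, ∀ x ≥ x₀, ∀ a z : ℤ, a.natAbs ≤ x ^ C → z.natAbs ≤ x ^ C →
      π * x / (4 * (C + 2) * Real.log x) ≤ count {n | ω ∈ S n} a z x := by
    filter_upwards [h1] with ω hω C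
    obtain ⟨x₀, hx₀⟩ := hω C (1 / 2) (by norm_num)
    refine ⟨max x₀ 3, fun x hx a z ha hz => ?_⟩
    have k3 : 3 ≤ x := (le_max_right _ _).trans hx
    have g1 := (abs_le.1 (hx₀ x ((le_max_left _ _).trans hx) a z ha hz)).1
    have g2 := MT_ge Q hQ a z C x k3 ha hz
    rw [MT_eq] at g2
    have g3 : π * x / (4 * (C + 2) * Real.log x) = 1 / 2 * (π * (x / ((2 * C + 4) * Real.log x))) := by
      have : 0 < Real.log x := Real.log_pos (by
        have : (3 : ℝ) ≤ x := by exact_mod_cast k3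
        linarith)
      field_simp
      ring
    rw [g3]
    linarith
  refine ⟨h1, ?_, h3, ?_⟩
  · filter_upwards [h1] with ω hω a
    have e1 : Asymptotics.IsEquivalent atTop (fun N : ℕ => (count {n | ω ∈ S n} a 0 N : ℝ))
        (fun N : ℕ => h Q a * L a 0 N) := by
      rw [Asymptotics.IsEquivalent, Asymptotics.isLittleO_iff]
      intro c hc
      obtain ⟨x₀, hx₀⟩ := hω 1 c hc
      rw [eventually_atTop]
      refine ⟨max x₀ a.natAbs, fun N hN => ?_⟩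
      have k1 : a.natAbs ≤ N ^ 1 := by
        rw [pow_one]
        exact (le_max_right _ _).trans hN
      have g1 := hx₀ N ((le_max_left _ _).trans hN) a 0 k1 (by simp)
      show ‖(count {n | ω ∈ S n} a 0 N : ℝ) - h Q a * L a 0 N‖ ≤ c * ‖h Q a * L a 0 N‖
      rw [Real.norm_eq_abs, Real.norm_eq_abs]
      exact g1.trans (mul_le_mul_of_nonneg_left (le_abs_self _) hc.le)
    refine e1.trans ?_
    have e2 := (Asymptotics.IsEquivalent.refl (u := fun _ : ℕ => h Q a) (l := atTop)).mul (L_equiv a)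
    refine e2.trans ?_
    have e3 : (fun N : ℕ => (1 / 2 : ℝ) * h Q a * ∫ t in (2 : ℝ)..(N : ℝ), 1 / Real.log t) =
        ((fun _ : ℕ => h Q a) * fun N : ℕ => (1 / 2 : ℝ) * ∫ t in (2 : ℝ)..(N : ℝ), 1 / Real.log t) := by
      funext N
      simp only [Pi.mul_apply]
      ring
    rw [e3]
  · filter_upwards [h3] with ω hω C δ hδ
    set D := ⌈2 * ((C : ℝ) + 1) / δ⌉₊ with hD
    obtain ⟨x₀, hx₀⟩ := hω D
    have t1 : Tendsto (fun n : ℕ => (n : ℝ) ^ (δ / 2)) atTop atTop :=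
      (tendsto_rpow_atTop (by positivity)).comp tendsto_natCast_atTop_atTop
    obtain ⟨a₀, ha₀⟩ := eventually_atTop.1 (t1.eventually_ge_atTop ((x₀ : ℝ) + 3))
    refine ⟨max a₀ 1, fun a z ha hz => ?_⟩
    set A := a.natAbs with hA
    have k1 : (x₀ : ℝ) + 3 ≤ (A : ℝ) ^ (δ / 2) := ha₀ A ((le_max_left _ _).trans ha)
    have k2 : (1 : ℝ) ≤ A := by exact_mod_cast (le_max_right _ _).trans ha
    set y : ℝ := (A : ℝ) ^ (δ / 2) with hy
    have hx0' : (0 : ℝ) ≤ x₀ := Nat.cast_nonneg _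
    have hyy : (A : ℝ) ^ δ = y * y := by
      rw [hy, ← Real.rpow_add (by linarith)]
      congr 1
      ring
    set X := ⌊(A : ℝ) ^ δ⌋₊ with hX
    have k3 : y ≤ X := by
      have := Nat.lt_floor_add_one ((A : ℝ) ^ δ)
      rw [← hX] at this
      nlinarith
    have k4 : (X : ℝ) ≤ (A : ℝ) ^ δ := Nat.floor_le (by positivity)
    have k5 : x₀ ≤ X := by
      have : (x₀ : ℝ) ≤ X := by linarith
      exact_mod_cast this
    have k5' : 3 ≤ X := by
      have : ((3 : ℕ) : ℝ) ≤ X := by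
        push_cast
        linarith
      exact_mod_cast this
    have k6 : (A : ℝ) ^ (C + 1) ≤ (X : ℝ) ^ D := (exp_ineq C δ A hδ k2).trans
      (pow_le_pow_left₀ (by positivity) k3 _)
    have k7 : A ^ (C + 1) ≤ X ^ D := by exact_mod_cast k6
    have hA1 : 1 ≤ A := by exact_mod_cast k2
    have k8 : A ≤ X ^ D := le_trans (by
      calc A = A ^ 1 := (pow_one A).symm
        _ ≤ A ^ (C + 1) := Nat.pow_le_pow_right hA1 (by omega)) k7
    have k9 : z.natAbs ≤ X ^ D := hz.trans ((Nat.pow_le_pow_right hA1 (by omega)).trans k7)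
    have g1 := hx₀ X k5 a z k8 k9
    have hX3 : (3 : ℝ) ≤ X := by exact_mod_cast k5'
    have hLX : 0 < Real.log X := Real.log_pos (by linarith)
    have g2 : 0 < π * X / (4 * ((D : ℝ) + 2) * Real.log X) := by positivity
    have g3 : 0 < count {n | ω ∈ S n} a z X := by
      have : (0 : ℝ) < count {n | ω ∈ S n} a z X := lt_of_lt_of_le g2 g1
      exact_mod_cast this
    have g4 : {n : ℤ | z < n ∧ n ≤ z + X ∧ (n ^ 2 + a).natAbs ∈ {n | ω ∈ S n}}.Nonempty := by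
      by_contra hcon
      rw [Set.not_nonempty_iff_eq_empty] at hcon
      unfold count at g3
      rw [hcon, Set.ncard_empty] at g3
      exact absurd g3 (lt_irrefl 0)
    obtain ⟨n, n1, n2, n3⟩ := g4
    refine ⟨n, n1, ?_, n3⟩
    have n2' : (n : ℝ) ≤ z + X := by exact_mod_cast n2
    linarith
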