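import Mathlib
import Pool.Agent.N223.UB.One

set_option autoImplicit false

/-!
# The families of Ankeny, Chowla, Hasse and of Lang in every sequential sieved random model

The integers are decided one after the other, only integers coprime to a fixed `Q` can be chosen, and
the conditional probability of choosing `n + 1` (coprime to `Q`) given the past is asymptotic to
`(Q / φ(Q)) / log n`.  No independence and no rate is assumed.  Almost surely the number of the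
`1 < n ≤ x` with `(2 q n) ^ 2 + 1` chosen is asymptotic to its expected order, uniformly for all
`1 ≤ q ≤ x ^ C`; the same for `((2 n + 1) q) ^ 2 + 4` and odd `q`.
-/

open MeasureTheory Filter
open scoped Topology

namespace Pool.Agent.Results.MP_4b1228_nt.SievedModels

/-- the values of the family of Ankeny, Chowla and Hasse -/
def vA (q n : ℕ) : ℕ := (2 * q * n) ^ 2 + 1

/-- the values of the family of Lang -/
def vB (q n : ℕ) : ℕ := ((2 * n + 1) * q) ^ 2 + 4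

/-- the number of the `n`, `a ≤ n ≤ x`, with `v q n` in `S` -/
noncomputable def count (S : Set ℕ) (v : ℕ → ℕ → ℕ) (a q x : ℕ) : ℕ :=
  {n | a ≤ n ∧ n ≤ x ∧ v q n ∈ S}.ncard

/-- the sum of `(Q / φ(Q)) / log (v q n)` over the `n`, `a ≤ n ≤ x`, with `v q n` coprime to `Q` -/
noncomputable def expected (Q : ℕ) (v : ℕ → ℕ → ℕ) (a q x : ℕ) : ℝ :=
  ∑ n ∈ (Finset.Icc a x).filter (fun n => Nat.Coprime (v q n) Q),
    ((Q : ℝ) / Nat.totient Q) / Real.log (v q n)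

/-- the set `𝒜` of the page, with the elements of `S` for the primes -/
def setA (S : Set ℕ) : Set ℕ := {p | p ∈ S ∧ ∃ q ∈ S, ∃ n > 1, p = (2 * q * n) ^ 2 + 1}

/-- the set `ℬ` of the page, with the elements of `S` for the primes -/
def setB (S : Set ℕ) : Set ℕ := {p | p ∈ S ∧ ∃ q ∈ S, ∃ n ≥ 1, p = ((2 * n + 1) * q) ^ 2 + 4}

open Pool.Agent.N223.UB Pool.Agent.R528.RM

lemma A_size (x q n C : ℕ) (hx : 2 ≤ x) (hq : q ≤ x ^ C) (hn : n ≤ x) : vA q n ≤ x ^ (2 * C + 5) := by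
  unfold vA
  have h1 : 2 * q * n ≤ 2 * x ^ C * x := Nat.mul_le_mul (Nat.mul_le_mul_left _ hq) hn
  have h2 : (2 * q * n) ^ 2 ≤ (2 * x ^ C * x) ^ 2 := Nat.pow_le_pow_left h1 2
  have h3 : (2 * x ^ C * x) ^ 2 = 4 * x ^ (2 * C + 2) := by ring
  have h4 : 4 * x ^ (2 * C + 2) ≤ x ^ (2 * C + 4) := by
    have : x ^ (2 * C + 4) = x ^ 2 * x ^ (2 * C + 2) := by ring
    rw [this]
    exact Nat.mul_le_mul_right _ (by nlinarith)
  have h5 : x ^ (2 * C + 5) = x * x ^ (2 * C + 4) := by ring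
  have h6 : 1 ≤ x ^ (2 * C + 4) := Nat.one_le_pow _ _ (by omega)
  have h7 : 2 * x ^ (2 * C + 4) ≤ x * x ^ (2 * C + 4) := Nat.mul_le_mul_right _ hx
  rw [h5]
  omega

lemma B_size (x q n C : ℕ) (hx : 2 ≤ x) (hq : q ≤ x ^ C) (hn : n ≤ x) : vB q n ≤ x ^ (2 * C + 7) := by
  unfold vB
  have h1 : (2 * n + 1) * q ≤ (3 * x) * x ^ C := Nat.mul_le_mul (by omega) hq
  have h2 : ((2 * n + 1) * q) ^ 2 ≤ ((3 * x) * x ^ C) ^ 2 := Nat.pow_le_pow_left h1 2
  have h3 : ((3 * x) * x ^ C) ^ 2 = 9 * x ^ (2 * C + 2) := by ring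
  have h4 : 9 * x ^ (2 * C + 2) ≤ x ^ (2 * C + 6) := by
    have : x ^ (2 * C + 6) = x ^ 4 * x ^ (2 * C + 2) := by ring
    rw [this]
    have h8 : 2 ^ 4 ≤ x ^ 4 := Nat.pow_le_pow_left hx 4
    exact Nat.mul_le_mul_right _ (by omega)
  have h5 : x ^ (2 * C + 7) = x * x ^ (2 * C + 6) := by ring
  have h6 : 4 ≤ x ^ (2 * C + 6) := by
    calc 4 ≤ 2 ^ 6 := by norm_num
      _ ≤ x ^ 6 := Nat.pow_le_pow_left hx 6
      _ ≤ x ^ (2 * C + 6) := Nat.pow_le_pow_right (by omega) (by omega)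
  have h7 : 2 * x ^ (2 * C + 6) ≤ x * x ^ (2 * C + 6) := Nat.mul_le_mul_right _ hx
  rw [h5]
  omega

lemma A_inj (q m n : ℕ) (hq : 1 ≤ q) (h : vA q m = vA q n) : m = n := by
  unfold vA at h
  have h1 : (2 * q * m) ^ 2 = (2 * q * n) ^ 2 := by omega
  have h2 := Nat.pow_left_injective (show 2 ≠ 0 by norm_num) h1
  exact Nat.eq_of_mul_eq_mul_left (by omega) h2

lemma B_inj (q m n : ℕ) (hq : 1 ≤ q) (h : vB q m = vB q n) : m = n := by
  unfold vB at h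
  have h1 : ((2 * m + 1) * q) ^ 2 = ((2 * n + 1) * q) ^ 2 := by omega
  have h2 := Nat.pow_left_injective (show 2 ≠ 0 by norm_num) h1
  have h3 := Nat.eq_of_mul_eq_mul_right (by omega) h2
  omega

lemma A_loc (Q q : ℕ) : ∃ r, ∀ n, n ≡ r [MOD Q] → Nat.Coprime (vA q n) Q := by
  refine ⟨0, fun n hn => ?_⟩
  have h1 : Q ∣ n := (Nat.modEq_zero_iff_dvd).1 hn
  have h2 : Q ∣ (2 * q * n) ^ 2 := dvd_pow (Dvd.dvd.mul_left h1 _) (by norm_num)
  unfold vA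
  obtain ⟨c, hc⟩ := h2
  rw [hc]
  simp

lemma B_loc (Q q : ℕ) (hQ : 0 < Q) (hq : q % 2 = 1) : ∃ r, ∀ n, n ≡ r [MOD Q] → Nat.Coprime (vB q n) Q := by
  obtain ⟨a, m, hm, hQm⟩ := Nat.exists_eq_two_pow_mul_odd hQ.ne'
  obtain ⟨r, hr⟩ := hm
  refine ⟨r, fun n hn => ?_⟩
  have h1 : n ≡ r [MOD m] := hn.of_dvd ⟨2 ^ a, by rw [hQm, mul_comm]⟩
  have h2 : m ∣ 2 * n + 1 := by
    have h3 : 2 * n + 1 ≡ 2 * r + 1 [MOD m] := (h1.mul_left 2).add_right 1
    rw [← hr] at h3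
    exact (h3.dvd_iff (dvd_refl m)).2 (dvd_refl m)
  rw [hQm]
  refine Nat.Coprime.mul_right ?_ ?_
  · refine Nat.Coprime.pow_right _ ?_
    rw [Nat.coprime_comm, Nat.Prime.coprime_iff_not_dvd Nat.prime_two]
    intro hd
    unfold vB at hd
    have h4 : 2 ∣ ((2 * n + 1) * q) ^ 2 := by omega
    have h5 := Nat.Prime.dvd_of_dvd_pow Nat.prime_two h4
    rcases (Nat.Prime.dvd_mul Nat.prime_two).1 h5 with h6 | h6 <;> omega
  · have h3 : m ∣ ((2 * n + 1) * q) ^ 2 := dvd_pow (Dvd.dvd.mul_right h2 q) (by norm_num)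
    obtain ⟨c, hc⟩ := h3
    unfold vB
    rw [hc]
    have h4 : Nat.Coprime 4 m := by
      have : Nat.Coprime 2 m := by
        rw [Nat.Prime.coprime_iff_not_dvd Nat.prime_two]
        omega
      exact Nat.Coprime.pow_left 2 this
    rw [Nat.coprime_comm] at h4 ⊢
    rw [Nat.add_comm, Nat.coprime_add_mul_left_right]
    exact h4

variable {Ω : Type} {m0 : MeasurableSpace Ω} {μ : Measure Ω} [IsProbabilityMeasure μ]
  {ℱ : Filtration ℕ m0} {A : ℕ → Set Ω}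

/-- the odd positive integers -/
lemma odd_pos {q : ℕ} (h : q % 2 = 1) : 1 ≤ q := by omega

end Pool.Agent.Results.MP_4b1228_nt.SievedModels

open Pool.Agent.Results.MP_4b1228_nt.SievedModels Pool.Agent.N223.UB

/-- Let `A n` be the event that `n` belongs to a random set adapted to a filtration `ℱ`, let
`Q ≥ 1`, let no integer which is not coprime to `Q` be chosen, and let the conditional probability of
`A (n + 1)` given `ℱ n`, times `log n`, tend to `Q / φ(Q)` along the `n` with `n + 1` coprime to `Q`,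
almost surely.
(1) Almost surely, for all `C` and `ε > 0`, for all large `x` and ALL `1 ≤ q ≤ x ^ C` the number of the
`1 < n ≤ x` with `(2 q n) ^ 2 + 1` chosen differs from its expected order by at most `ε` times this
order, and, for odd `q`, the same for the `1 ≤ n ≤ x` with `((2 n + 1) q) ^ 2 + 4` chosen.
(2) Almost surely, for all `C`, for all large `x` and all these `q` both numbers are at least
`x / (4 Q (3 C + 8) log x)`.
(3) Almost surely, for every `δ > 0` and all large `q` some `(2 q n) ^ 2 + 1` with `1 < n ≤ q ^ δ` is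
chosen, and, for odd `q`, some `((2 n + 1) q) ^ 2 + 4` with `1 ≤ n ≤ q ^ δ`.
(4) Almost surely the sets `𝒜` and `ℬ` of the page (with the chosen integers for the primes) are
infinite; in fact for every `q ≥ 1` infinitely many `(2 q n) ^ 2 + 1` are chosen and for every odd `q`
infinitely many `((2 n + 1) q) ^ 2 + 4`. -/
theorem Pool.Agent.Results.MP_4b1228_nt.SievedModels.result
    {Ω : Type} [mΩ : MeasurableSpace Ω] (μ : Measure Ω) [IsProbabilityMeasure μ]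
    (ℱ : Filtration ℕ mΩ) (A : ℕ → Set Ω) (hA : ∀ n, MeasurableSet[ℱ n] (A n))
    (Q : ℕ) (hQ : 0 < Q) (hcop : ∀ n, ¬ Nat.Coprime n Q → A n = ∅)
    (hd : ∀ᵐ ω ∂μ, Tendsto (fun n : ℕ =>
      (μ[(A (n + 1)).indicator (fun _ => (1 : ℝ)) | ℱ n]) ω * Real.log n)
      (atTop ⊓ 𝓟 {n : ℕ | Nat.Coprime (n + 1) Q}) (𝓝 ((Q : ℝ) / Nat.totient Q))) :
    (∀ᵐ ω ∂μ, ∀ (C : ℕ) (ε : ℝ), 0 < ε → ∃ x₀ : ℕ, ∀ x ≥ x₀, ∀ q : ℕ, 1 ≤ q → q ≤ x ^ C →
      |(count {n | ω ∈ A n} vA 2 q x : ℝ) - expected Q vA 2 q x| ≤ ε * expected Q vA 2 q x ∧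
      (q % 2 = 1 → |(count {n | ω ∈ A n} vB 1 q x : ℝ) - expected Q vB 1 q x| ≤
        ε * expected Q vB 1 q x)) ∧
    (∀ᵐ ω ∂μ, ∀ C : ℕ, ∃ x₀ : ℕ, ∀ x ≥ x₀, ∀ q : ℕ, 1 ≤ q → q ≤ x ^ C →
      (x : ℝ) / (4 * Q * (3 * C + 8) * Real.log x) ≤ count {n | ω ∈ A n} vA 2 q x ∧
      (q % 2 = 1 → (x : ℝ) / (4 * Q * (3 * C + 8) * Real.log x) ≤ count {n | ω ∈ A n} vB 1 q x)) ∧
    (∀ᵐ ω ∂μ, ∀ δ : ℝ, 0 < δ → ∃ q₀ : ℕ, ∀ q ≥ q₀,
      (∃ n : ℕ, 1 < n ∧ (n : ℝ) ≤ (q : ℝ) ^ δ ∧ ω ∈ A ((2 * q * n) ^ 2 + 1)) ∧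
      (q % 2 = 1 → ∃ n : ℕ, 1 ≤ n ∧ (n : ℝ) ≤ (q : ℝ) ^ δ ∧ ω ∈ A (((2 * n + 1) * q) ^ 2 + 4))) ∧
    (∀ᵐ ω ∂μ, (setA {n | ω ∈ A n}).Infinite ∧ (setB {n | ω ∈ A n}).Infinite ∧
      (∀ q : ℕ, 1 ≤ q → {n : ℕ | 1 < n ∧ ω ∈ A ((2 * q * n) ^ 2 + 1)}.Infinite) ∧
      ∀ q : ℕ, q % 2 = 1 → {n : ℕ | 1 ≤ n ∧ ω ∈ A (((2 * n + 1) * q) ^ 2 + 4)}.Infinite) := by
  have hQ' : (0 : ℝ) < Q := by exact_mod_cast hQ
  have lA : ∀ᵐ ω ∂μ, ∀ (C : ℕ) (ε : ℝ), 0 < ε → ∃ x₀ : ℕ, ∀ x ≥ x₀, ∀ q : ℕ, 1 ≤ q → q ≤ x ^ C →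
      |(count {n | ω ∈ A n} vA 2 q x : ℝ) - expected Q vA 2 q x| ≤ ε * expected Q vA 2 q x ∧
      (x : ℝ) / (2 * Q * (((2 * C + 5 : ℕ) + C + 1) * Real.log x)) ≤ expected Q vA 2 q x := by
    refine ae_all_iff.2 fun C => ?_
    exact gen1 (μ := μ) hA Q hQ hcop hd vA (fun q => 1 ≤ q) 2 Q C (2 * C + 5) hQ
      (fun c n hc hn => by
        unfold vA
        have : 1 ≤ (2 * c * n) ^ 2 := Nat.one_le_pow _ _ (by positivity)
        omega)
      (fun c m n hc _ _ h => A_inj c m n hc h)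
      (fun x c n hx _ hc hn => A_size x c n C hx hc hn)
      (fun c _ => A_loc Q c)
  have lB : ∀ᵐ ω ∂μ, ∀ (C : ℕ) (ε : ℝ), 0 < ε → ∃ x₀ : ℕ, ∀ x ≥ x₀, ∀ q : ℕ, q % 2 = 1 → q ≤ x ^ C →
      |(count {n | ω ∈ A n} vB 1 q x : ℝ) - expected Q vB 1 q x| ≤ ε * expected Q vB 1 q x ∧
      (x : ℝ) / (2 * Q * (((2 * C + 7 : ℕ) + C + 1) * Real.log x)) ≤ expected Q vB 1 q x := by
    refine ae_all_iff.2 fun C => ?_
    exact gen1 (μ := μ) hA Q hQ hcop hd vB (fun q => q % 2 = 1) 1 Q C (2 * C + 7) hQ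
      (fun c n _ _ => by
        unfold vB
        omega)
      (fun c m n hc _ _ h => B_inj c m n (odd_pos hc) h)
      (fun x c n hx _ hc hn => B_size x c n C hx hc hn)
      (fun c hc => B_loc Q c hQ hc)
  have h1 : ∀ᵐ ω ∂μ, ∀ (C : ℕ) (ε : ℝ), 0 < ε → ∃ x₀ : ℕ, ∀ x ≥ x₀, ∀ q : ℕ, 1 ≤ q → q ≤ x ^ C →
      |(count {n | ω ∈ A n} vA 2 q x : ℝ) - expected Q vA 2 q x| ≤ ε * expected Q vA 2 q x ∧
      (q % 2 = 1 → |(count {n | ω ∈ A n} vB 1 q x : ℝ) - expected Q vB 1 q x| ≤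
        ε * expected Q vB 1 q x) := by
    filter_upwards [lA, lB] with ω wA wB C ε hε
    obtain ⟨x₁, hx₁⟩ := wA C ε hε
    obtain ⟨x₂, hx₂⟩ := wB C ε hε
    exact ⟨max x₁ x₂, fun x hx q hq hqx => ⟨(hx₁ x ((le_max_left _ _).trans hx) q hq hqx).1,
      fun ho => (hx₂ x ((le_max_right _ _).trans hx) q ho hqx).1⟩⟩
  have h2 : ∀ᵐ ω ∂μ, ∀ C : ℕ, ∃ x₀ : ℕ, ∀ x ≥ x₀, ∀ q : ℕ, 1 ≤ q → q ≤ x ^ C →
      (x : ℝ) / (4 * Q * (3 * C + 8) * Real.log x) ≤ count {n | ω ∈ A n} vA 2 q x ∧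
      (q % 2 = 1 → (x : ℝ) / (4 * Q * (3 * C + 8) * Real.log x) ≤ count {n | ω ∈ A n} vB 1 q x) := by
    filter_upwards [lA, lB] with ω wA wB C
    obtain ⟨x₁, hx₁⟩ := wA C (1 / 2) (by norm_num)
    obtain ⟨x₂, hx₂⟩ := wB C (1 / 2) (by norm_num)
    refine ⟨max (max x₁ x₂) 3, fun x hx q hq hqx => ?_⟩
    have hx3 : (3 : ℝ) ≤ x := by exact_mod_cast (le_max_right _ _).trans hx
    have hL : 0 < Real.log x := Real.log_pos (by linarith)
    have hC : (0 : ℝ) ≤ C := Nat.cast_nonneg C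
    constructor
    · obtain ⟨g1, g2⟩ := hx₁ x ((le_max_left _ _).trans ((le_max_left _ _).trans hx)) q hq hqx
      have g3 := (abs_le.1 g1).1
      have g4 : (x : ℝ) / (4 * Q * (3 * C + 8) * Real.log x) ≤
          1 / 2 * ((x : ℝ) / (2 * Q * (((2 * C + 5 : ℕ) + C + 1) * Real.log x))) := by
        rw [div_mul_div_comm, one_mul]
        apply div_le_div_of_nonneg_left (by linarith) (by positivity)
        push_cast
        have : 0 ≤ (Q : ℝ) * Real.log x := by positivity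
        nlinarith
      linarith
    · intro ho
      obtain ⟨g1, g2⟩ := hx₂ x ((le_max_right _ _).trans ((le_max_left _ _).trans hx)) q ho hqx
      have g3 := (abs_le.1 g1).1
      have g4 : (x : ℝ) / (4 * Q * (3 * C + 8) * Real.log x) ≤
          1 / 2 * ((x : ℝ) / (2 * Q * (((2 * C + 7 : ℕ) + C + 1) * Real.log x))) := by
        rw [div_mul_div_comm, one_mul]
        apply div_le_div_of_nonneg_left (by linarith) (by positivity)
        push_cast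
        have : 0 ≤ (Q : ℝ) * Real.log x := by positivity
        nlinarith
      linarith
  refine ⟨h1, h2, ?_, ?_⟩
  · filter_upwards [h2] with ω hω δ hδ
    obtain ⟨q₁, hq₁⟩ := small_args (S := {n | ω ∈ A n}) (v := vA) (P := fun q => 1 ≤ q) (a := 2)
      (fun C => 4 * Q * (3 * C + 8)) (fun C => by positivity) (fun C => by
        obtain ⟨x₀, hx₀⟩ := hω C
        exact ⟨x₀, fun x hx c hc hcx => (hx₀ x hx c hc hcx).1⟩) hδ
    obtain ⟨q₂, hq₂⟩ := small_args (S := {n | ω ∈ A n}) (v := vB) (P := fun q => q % 2 = 1) (a := 1)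
      (fun C => 4 * Q * (3 * C + 8)) (fun C => by positivity) (fun C => by
        obtain ⟨x₀, hx₀⟩ := hω C
        exact ⟨x₀, fun x hx c hc hcx => (hx₀ x hx c (odd_pos hc) hcx).2 hc⟩) hδ
    refine ⟨max (max q₁ q₂) 1, fun q hq => ⟨?_, fun ho => ?_⟩⟩
    · obtain ⟨n, n1, n2, n3⟩ := hq₁ q ((le_max_left _ _).trans ((le_max_left _ _).trans hq))
        ((le_max_right _ _).trans hq)
      exact ⟨n, n1, n2, n3⟩
    · obtain ⟨n, n1, n2, n3⟩ := hq₂ q ((le_max_right _ _).trans ((le_max_left _ _).trans hq)) ho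
      exact ⟨n, n1, n2, n3⟩
  · filter_upwards [h2] with ω hω
    have iA : ∀ q : ℕ, 1 ≤ q → {n : ℕ | 1 < n ∧ ω ∈ A ((2 * q * n) ^ 2 + 1)}.Infinite := by
      intro q hq
      obtain ⟨x₀, hx₀⟩ := hω 1
      exact infinite_args (S := {n | ω ∈ A n}) (v := vA q) (a := 2) (K := 4 * Q * (3 * (1 : ℕ) + 8))
        (by positivity) (x₀ := max x₀ q) fun x hx => (hx₀ x ((le_max_left _ _).trans hx) q hq (by
          rw [pow_one]
          exact (le_max_right _ _).trans hx)).1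
    have iB : ∀ q : ℕ, q % 2 = 1 → {n : ℕ | 1 ≤ n ∧ ω ∈ A (((2 * n + 1) * q) ^ 2 + 4)}.Infinite := by
      intro q ho
      obtain ⟨x₀, hx₀⟩ := hω 1
      exact infinite_args (S := {n | ω ∈ A n}) (v := vB q) (a := 1) (K := 4 * Q * (3 * (1 : ℕ) + 8))
        (by positivity) (x₀ := max x₀ q) fun x hx => (hx₀ x ((le_max_left _ _).trans hx) q (odd_pos ho) (by
          rw [pow_one]
          exact (le_max_right _ _).trans hx)).2 ho
    obtain ⟨n₀, hn₀, hn₁⟩ := (iA 1 le_rfl).nonempty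
    set q₀ := (2 * 1 * n₀) ^ 2 + 1 with hq₀
    have ho : q₀ % 2 = 1 := by
      rw [hq₀, mul_one, mul_pow]
      omega
    refine ⟨?_, ?_, iA, iB⟩
    · refine Set.infinite_of_injOn_mapsTo (f := fun n => (2 * q₀ * n) ^ 2 + 1) ?_ ?_ (iA q₀ (odd_pos ho))
      · intro m _ n _ h
        exact A_inj q₀ m n (odd_pos ho) h
      · rintro n ⟨h3, h4⟩
        exact ⟨h4, q₀, hn₁, n, h3, rfl⟩
    · refine Set.infinite_of_injOn_mapsTo (f := fun n => ((2 * n + 1) * q₀) ^ 2 + 4) ?_ ?_ (iB q₀ ho)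
      · intro m _ n _ h
        exact B_inj q₀ m n (odd_pos ho) h
      · rintro n ⟨h3, h4⟩
        exact ⟨h4, q₀, hn₁, n, h3, rfl⟩
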